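import Pool.Agent.Lib.MP_30fd2d_al.Mg.G003
import Pool.Agent.Lib.MP_30fd2d_al.Mg.G005

set_option autoImplicit false
set_option linter.style.haveILetI false

/-! Smallness for all words, and the existence of nontrivial values in high towers. -/

namespace Pool.Agent.PLen

open scoped BigOperators

theorem ev_mul {G : Type} [Group G] {N : ℕ} {P : Subgroup G} (x : Fin N → P)
    (u v : FreeGroup (Fin N)) : ev x (u * v) = ev x u * ev x v := by
  unfold ev
  rw [map_mul]

theorem ev_inv {G : Type} [Group G] {N : ℕ} {P : Subgroup G} (x : Fin N → P)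
    (u : FreeGroup (Fin N)) : ev x u⁻¹ = (ev x u)⁻¹ := by
  unfold ev
  rw [map_inv]

theorem ev_one {G : Type} [Group G] {N : ℕ} {P : Subgroup G} (x : Fin N → P) :
    ev x (1 : FreeGroup (Fin N)) = 1 := by
  unfold ev
  rw [map_one]

/-- Smallness is invariant under conjugation of the word. -/
theorem SmallT.conj {p : ℕ} [Fact p.Prime] {N : ℕ} {v : FreeGroup (Fin N)} {ε : ℝ} {h : ℕ}
    (hs : SmallT p v ε h) (c : FreeGroup (Fin N)) : SmallT p (c * v * c⁻¹) ε h := by
  intro G _ _ n τ P j hj hjn hodd d hd hd' γ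
  have h1 := hs G n τ P j hj hjn hodd d hd hd' γ
  haveI := τ.nM j
  have h2 := pr_shiftR (P := (P : Subgroup G)) c
    (fun s : Smp (P : Subgroup G) N => γ * om v s ∈ stab (τ.M j) d)
  rw [← h2] at h1
  refine le_trans (pr_mono fun s hs => ?_) h1
  have h3 : om v (s.1, s.2 * ev s.1 c) = om (c * v * c⁻¹) s := by
    unfold om
    rw [ev_mul, ev_mul, ev_inv]
    simp only
    group
  rw [h3]
  exact hs

theorem smallT_all (p : ℕ) [Fact p.Prime] (N : ℕ) : ∀ (k : ℕ) (w : FreeGroup (Fin N)),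
    w.norm ≤ k → w ≠ 1 → ∀ ε > (0 : ℝ), ∃ h, SmallT p w ε h := by
  intro k
  induction k with
  | zero =>
    intro w hw hw1
    exact absurd (FreeGroup.norm_eq_zero.1 (Nat.le_zero.1 hw)) hw1
  | succ k ih =>
    intro w hw hw1 ε hε
    set L := FreeGroup.reduceCyclically w.toWord with hL
    set c := FreeGroup.mk (FreeGroup.reduceCyclically.conjugator w.toWord) with hc
    have hconj : w = c * FreeGroup.mk L * c⁻¹ := by
      have h1 := FreeGroup.reduceCyclically.conj_conjugator_reduceCyclically w.toWord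
      calc w = FreeGroup.mk w.toWord := FreeGroup.mk_toWord.symm
        _ = _ := by
          conv_lhs => rw [← h1]
          rw [hc, FreeGroup.inv_mk, FreeGroup.mul_mk, FreeGroup.mul_mk]
    have hcyc : FreeGroup.IsCyclicallyReduced L :=
      FreeGroup.reduceCyclically.isCyclicallyReduced FreeGroup.isReduced_toWord
    have hlen : L.length ≤ k + 1 := by
      have h1 := FreeGroup.reduceCyclically.conj_conjugator_reduceCyclically w.toWord
      have h2 : L.length ≤ w.toWord.length := by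
        have h3 := congrArg List.length h1
        simp only [List.length_append] at h3
        rw [← hL] at h3
        omega
      exact h2.trans hw
    have hLne : L ≠ [] := by
      intro h
      apply hw1
      rw [hconj, h]
      change c * 1 * c⁻¹ = 1
      group
    obtain ⟨⟨i0, e⟩, L', hLL⟩ := List.exists_cons_of_ne_nil hLne
    have hgood : GoodWord L i0 := ⟨hcyc, e, L', hLL⟩
    obtain ⟨δ, hδ0, hδ1, hD⟩ := dkill p L i0 hgood (fun v hv hvn ε hε =>
      ih v (by omega) hv ε hε)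
    have hD' : DKP p L i0 (min δ (1 / 2)) := by
      intro C ε hε
      obtain ⟨h, S, hh⟩ := hD C ε hε
      refine ⟨h, S, ?_⟩
      intro G _ _ n τ P j hj hjn hodd b hb hb' hcond
      refine le_trans (pr_mono fun s hs => ?_) (hh G n τ P j hj hjn hodd b hb hb' hcond)
      intro hall
      apply hs
      intro K hK1 hK2 hK3 n1 hn1
      refine (hall K hK1 hK2 hK3 n1 hn1).trans ?_
      have := min_le_left δ (1 / 2)
      linarith
    obtain ⟨h, hT, _⟩ := key_small (lt_min hδ0 (by norm_num)) (min_le_right _ _) hD' ε hε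
    refine ⟨h, ?_⟩
    rw [hconj]
    exact hT.conj c

theorem B_main (p : ℕ) [Fact p.Prime] (N : ℕ) (w : FreeGroup (Fin N)) (hw : w ≠ 1) :
    ∃ h : ℕ, ∀ (G : Type) [Group G] [Finite G] (n : ℕ) (τ : Tower p G n) (P : Sylow p G),
      h ≤ n → ∃ x : Fin N → (P : Subgroup G), ev x w ≠ 1 := by
  obtain ⟨h, hT⟩ := smallT_all p N w.norm w le_rfl hw (1 / 2) (by norm_num)
  refine ⟨2 * h + 1, ?_⟩
  intro G _ _ n τ P hn
  have hodd : Odd (2 * h + 1) := ⟨h, rfl⟩
  set j := 2 * h + 1 with hj
  haveI := τ.nM j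
  -- a nontrivial character of the layer `j`
  have hne : ((τ.M' j).subgroupOf (τ.M j)) ≠ ⊤ := by
    intro h1
    rw [Subgroup.subgroupOf_eq_top] at h1
    exact τ.ne j hn (le_antisymm (τ.le j) h1)
  have hcard := dualT τ hn hodd ((τ.M' j).subgroupOf (τ.M j)) le_rfl
  have h2 : 1 < Nat.card {b : τ.M j →* (kk p)ˣ // ∀ x ∈ (τ.M' j).subgroupOf (τ.M j), b x = 1} := by
    rw [hcard]
    have h3 : ((τ.M' j).subgroupOf (τ.M j)).index ≠ 1 := fun h => hne (Subgroup.index_eq_one.1 h)
    have h4 : ((τ.M' j).subgroupOf (τ.M j)).index ≠ 0 := Subgroup.index_ne_zero_of_finite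
    omega
  haveI : Finite (τ.M j →* (kk p)ˣ) := finite_chars
  haveI : Nontrivial {b : τ.M j →* (kk p)ˣ // ∀ x ∈ (τ.M' j).subgroupOf (τ.M j), b x = 1} :=
    Finite.one_lt_card_iff_nontrivial.1 h2
  obtain ⟨d, hd⟩ := exists_ne (⟨1, fun _ _ => rfl⟩ :
    {b : τ.M j →* (kk p)ˣ // ∀ x ∈ (τ.M' j).subgroupOf (τ.M j), b x = 1})
  have hd1 : d.1 ≠ 1 := fun h => hd (Subtype.ext h)
  have h5 := hT G n τ P j (by omega) hn hodd d.1 hd1 (fun x hx => d.2 x hx) 1
  obtain ⟨s, hs⟩ := pr_lt_of _ (lt_of_le_of_lt h5 (by norm_num))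
  refine ⟨s.1, fun h6 => hs ?_⟩
  rw [one_mul]
  have h7 : om w s = 1 := by
    unfold om
    rw [h6]
    group
  rw [h7]
  exact one_mem _

end Pool.Agent.PLen
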