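import Mathlib

set_option autoImplicit false

/-!
Definitions for the bound on the p-length of finite p-soluble groups whose Sylow p-subgroups
satisfy a law (towers of layers, random conjugates of word values).
-/

namespace Pool.Agent.PLen

open scoped BigOperators

/-- A tower of layers `M j / M' j` (`j = 0, ..., n`, from top to bottom) in a group `G`.
The even layers are elementary abelian `p`-groups, the odd ones abelian `p'`-groups;
`C j` is the centraliser in `M j` of the layer `j + 1`. -/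
structure Tower (p : ℕ) (G : Type) [Group G] (n : ℕ) where
  M : ℕ → Subgroup G
  M' : ℕ → Subgroup G
  C : ℕ → Subgroup G
  nM : ∀ j, (M j).Normal
  nM' : ∀ j, (M' j).Normal
  nC : ∀ j, (C j).Normal
  le : ∀ j, M' j ≤ M j
  succ_le : ∀ j, j < n → M (j + 1) ≤ M' j
  mem_C : ∀ j, j < n → ∀ x, x ∈ C j ↔ x ∈ M j ∧ ∀ v ∈ M (j + 1), x * v * x⁻¹ * v⁻¹ ∈ M' (j + 1)
  C_le : ∀ j, j < n → C j ≤ M' j
  ne : ∀ j, j ≤ n → M' j ≠ M j
  ab : ∀ j, j ≤ n → ∀ x ∈ M j, ∀ y ∈ M j, x * y * x⁻¹ * y⁻¹ ∈ M' j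
  tyY : ∀ j, j ≤ n → Even j → ∀ x ∈ M j, x ^ p ∈ M' j
  tyT : ∀ j, j ≤ n → Odd j → ((M' j).relIndex (M j)).Coprime p
  act : ∀ j, j < n → ⁅M (j + 1), M j⁆ ⊔ M' (j + 1) = M (j + 1)
  frat : ∀ j, j < n → ∀ K : Subgroup G, K ≤ M j → K ⊔ M' j = M j → K ⊔ C j = M j
  cen : ∀ j, j < n → Odd j → ∀ z ∈ M' j, ∀ x ∈ M j, z * x * z⁻¹ * x⁻¹ ∈ C j
  gen : ∀ j, j < n → Odd j → M' j ≤ ⁅M j, M j⁆ ⊔ C j
  copC : ∀ j, j < n → Odd j → ((C j).relIndex (M j)).Coprime p

section Prob

open Classical in
/-- Probability of `φ` under the uniform distribution on a finite type. -/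
noncomputable def pr {α : Type*} [Finite α] (φ : α → Prop) : ℝ :=
  (Nat.card {a // φ a} : ℝ) / (Nat.card α : ℝ)

end Prob

section Conj

variable {G : Type} [Group G]

/-- The conjugation action of `G` (from the right) on the homomorphisms from a normal
subgroup `M`: `(cact M g b) v = b (g v g⁻¹)`. -/
def cact {A : Type*} [CommGroup A] (M : Subgroup G) [M.Normal] (g : G) (b : M →* A) : M →* A :=
  b.comp (MulAut.conjNormal g).toMonoidHom

/-- The stabiliser of `b` under `cact`. -/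
def stab {A : Type*} [CommGroup A] (M : Subgroup G) [M.Normal] (b : M →* A) : Subgroup G where
  carrier := {g | cact M g b = b}
  mul_mem' := by
    intro g h hg hh
    simp only [Set.mem_setOf_eq] at hg hh ⊢
    ext v
    have h1 := DFunLike.congr_fun hh v
    have h2 := DFunLike.congr_fun hg (MulAut.conjNormal h v)
    simp only [cact, MonoidHom.coe_comp, Function.comp_apply, MulEquiv.coe_toMonoidHom] at h1 h2 ⊢
    rw [← h1, ← h2, map_mul]
    rfl
  one_mem' := by
    ext v
    simp [cact]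
  inv_mem' := by
    intro g hg
    simp only [Set.mem_setOf_eq] at hg ⊢
    ext v
    have h1 := DFunLike.congr_fun hg (MulAut.conjNormal g⁻¹ v)
    simp only [cact, MonoidHom.coe_comp, Function.comp_apply, MulEquiv.coe_toMonoidHom] at h1 ⊢
    rw [← h1]
    simp

end Conj

section Words

variable {G : Type} [Group G] {N : ℕ}

/-- Value of the word `w` at the tuple `x`. -/
def ev {P : Subgroup G} (x : Fin N → P) (w : FreeGroup (Fin N)) : G :=
  FreeGroup.lift (fun i => (x i : G)) w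

/-- The sample space: a tuple of elements of `P` and an element of `G`. -/
abbrev Smp (P : Subgroup G) (N : ℕ) : Type := (Fin N → P) × G

/-- The random conjugate `g w(x) g⁻¹` of a word value. -/
def om {P : Subgroup G} (w : FreeGroup (Fin N)) (s : Smp P N) : G := s.2 * ev s.1 w * s.2⁻¹

/-- The event `γ ω ∈ H M`. -/
def EvM {P : Subgroup G} (w : FreeGroup (Fin N)) (H M : Subgroup G) (γ : G) (s : Smp P N) : Prop :=
  γ * om w s ∈ H ⊔ M

end Words

/-- The algebraic closure of the field with `p` elements. -/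
abbrev kk (p : ℕ) [Fact p.Prime] : Type := AlgebraicClosure (ZMod p)

/-- All nontrivial characters of the odd layers at depth at least `h` have small probability
of being mapped to a given one. -/
def SmallT (p : ℕ) [Fact p.Prime] {N : ℕ} (w : FreeGroup (Fin N)) (ε : ℝ) (h : ℕ) : Prop :=
  ∀ (G : Type) [Group G] [Finite G] (n : ℕ) (τ : Tower p G n) (P : Sylow p G) (j : ℕ),
    h ≤ j → j ≤ n → Odd j → ∀ (d : τ.M j →* (kk p)ˣ), d ≠ 1 →
    (∀ x : τ.M j, (x : G) ∈ τ.M' j → d x = 1) → ∀ γ : G,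
    haveI := τ.nM j
    pr (fun s : Smp (P : Subgroup G) N => γ * om w s ∈ stab (τ.M j) d) ≤ ε

/-- The same for the even layers, with functionals to `ZMod p`. -/
def SmallY (p : ℕ) [Fact p.Prime] {N : ℕ} (w : FreeGroup (Fin N)) (ε : ℝ) (h : ℕ) : Prop :=
  ∀ (G : Type) [Group G] [Finite G] (n : ℕ) (τ : Tower p G n) (P : Sylow p G) (j : ℕ),
    h ≤ j → j ≤ n → Even j → ∀ (b : τ.M j →* Multiplicative (ZMod p)), b ≠ 1 →
    (∀ x : τ.M j, (x : G) ∈ τ.M' j → b x = 1) → ∀ γ : G,
    haveI := τ.nM j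
    pr (fun s : Smp (P : Subgroup G) N => γ * om w s ∈ stab (τ.M j) b) ≤ ε

end Pool.Agent.PLen
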