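import Pool.Agent.Lib.MP_30fd2d_al.Defs

set_option autoImplicit false

/-!
Further definitions: Fox derivative of a character along a word, supports of a functional.
-/

namespace Pool.Agent.PLen

open scoped BigOperators

section Fox

variable {G : Type} [Group G] {N : ℕ}

/-- The (multiplicatively written) Fox derivative: for the word given by the list `L`, the
product over the occurrences of the letter `i0^{±1}` of `(b · (g u))^{±1}`, `u` the value of the
prefix (ending before an occurrence of `i0`, after an occurrence of `i0⁻¹`). -/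
noncomputable def Dk {A : Type*} [CommGroup A] (M : Subgroup G) [M.Normal] {P : Subgroup G}
    (b : M →* A) (i0 : Fin N) (x : Fin N → P) : List (Fin N × Bool) → G → (M →* A)
  | [], _ => 1
  | (i, true) :: L, g =>
      (if i = i0 then cact M g b else 1) * Dk M b i0 x L (g * (x i : G))
  | (i, false) :: L, g =>
      (if i = i0 then (cact M (g * (x i : G)⁻¹) b)⁻¹ else 1) * Dk M b i0 x L (g * (x i : G)⁻¹)

/-- Characters of `M` (with values in `A`) that are trivial on `M ⊓ S`. -/
def Lam (M S : Subgroup G) (A : Type*) [CommGroup A] : Type _ :=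
  {b : M →* A // ∀ x : M, (x : G) ∈ S → b x = 1}

end Fox

section Supp

variable {G : Type} [Group G]

/-- The function on `V` attached to a functional, with values in `kk p`. -/
noncomputable def hat {p : ℕ} [Fact p.Prime] {V : Subgroup G}
    (b : V →* Multiplicative (ZMod p)) (v : V) : kk p :=
  algebraMap (ZMod p) (kk p) (Multiplicative.toAdd (b v))

open Classical in
/-- The (unnormalised) component of `b` of weight `d`, `d` a character of the normal subgroup
`M` (so `b (q v q⁻¹) = ∑_d d q * b_d v`); the sum runs over representatives of `M / C`. -/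
noncomputable def comp {p : ℕ} [Fact p.Prime] (M C V : Subgroup G) [V.Normal]
    (d : M →* (kk p)ˣ) (b : V →* Multiplicative (ZMod p)) (v : V) : kk p :=
  ∑ᶠ q : M ⧸ C.subgroupOf M, ((d q.out : (kk p)ˣ) : kk p)⁻¹ *
    hat b ((MulAut.conjNormal ((q.out : M) : G) : MulAut V) v)

/-- The set of nontrivial weights `d` of `b` for the action of layer `j` on layer `j+1`. -/
def supp {p : ℕ} [Fact p.Prime] {n : ℕ} (τ : Tower p G n) (j : ℕ)
    (b : τ.M (j + 1) →* Multiplicative (ZMod p)) : Set (τ.M j →* (kk p)ˣ) :=
  haveI := τ.nM (j + 1)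
  {d | d ≠ 1 ∧ (∀ x : τ.M j, (x : G) ∈ τ.M' j → d x = 1) ∧
    comp (τ.M j) (τ.C j) (τ.M (j + 1)) d b ≠ 0}

end Supp

end Pool.Agent.PLen
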