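import Pool.Agent.Lib.MP_30fd2d_al.Mg.G006
import Pool.Agent.Lib.MP_30fd2d_al.BMain

set_option autoImplicit false

/-! T16. Final assembly. -/

namespace Pool.Agent.PLen

/-- The chain condition of the problem. -/
private def finalChain (G : Type) [Group G] (p n : ℕ) : Prop :=
  ∃ N : ℕ → Subgroup G,
    N 0 = ⊥ ∧ N (2 * n + 1) = ⊤ ∧ (∀ i, (N i).Normal) ∧
    (∀ i, N i ≤ N (i + 1)) ∧
    (∀ i ≤ n, ∃ c : ℕ, Nat.Coprime c p ∧
        Nat.card (N (2 * i + 1)) = c * Nat.card (N (2 * i))) ∧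
    (∀ i < n, ∃ k : ℕ,
        Nat.card (N (2 * i + 2)) = p ^ k * Nat.card (N (2 * i + 1)))

private theorem final_card {G : Type} [Group G] {A B : Subgroup G} (h : A ≤ B) :
    Nat.card B = A.relIndex B * Nat.card A := by
  have h1 := Subgroup.relIndex_mul_relIndex ⊥ A B bot_le h
  rw [Subgroup.relIndex_bot_left, Subgroup.relIndex_bot_left] at h1
  rw [← h1, mul_comm]

private theorem final_chain_iff {G : Type} [Group G] [Finite G] {p n : ℕ} :
    PL p n (⊥ : Subgroup G) ↔ finalChain G p n := by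
  constructor
  · rintro ⟨N, h0, h1, h2, h3, h4, h5⟩
    refine ⟨N, h0, h1, h2, h3, fun i hi => ⟨_, h4 i hi, final_card (h3 _)⟩, fun i hi => ?_⟩
    obtain ⟨k, hk⟩ := h5 i hi
    refine ⟨k, ?_⟩
    rw [← hk]
    exact final_card (h3 _)
  · rintro ⟨N, h0, h1, h2, h3, h4, h5⟩
    refine ⟨N, h0, h1, h2, h3, fun i hi => ?_, fun i hi => ?_⟩
    · obtain ⟨c, hc, hc2⟩ := h4 i hi
      have h6 := final_card (h3 (2 * i))
      rw [hc2] at h6
      rw [← Nat.eq_of_mul_eq_mul_right Nat.card_pos h6]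
      exact hc
    · obtain ⟨k, hk⟩ := h5 i hi
      refine ⟨k, ?_⟩
      have h6 := final_card (h3 (2 * i + 1))
      rw [show 2 * i + 1 + 1 = 2 * i + 2 from rfl, hk] at h6
      exact (Nat.eq_of_mul_eq_mul_right Nat.card_pos h6).symm

/-- A word involves finitely many letters. -/
private theorem final_word (w : FreeGroup ℕ) :
    ∃ (N : ℕ) (w' : FreeGroup (Fin N)), FreeGroup.map Fin.val w' = w := by
  have hcast : ∀ (a b : ℕ) (h : a ≤ b) (u : FreeGroup (Fin a)),
      FreeGroup.map Fin.val (FreeGroup.map (Fin.castLE h) u) = FreeGroup.map Fin.val u := by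
    intro a b h u
    rw [FreeGroup.map.comp]
    rfl
  induction w using FreeGroup.induction_on with
  | C1 => exact ⟨0, 1, map_one _⟩
  | of j => exact ⟨j + 1, FreeGroup.of ⟨j, Nat.lt_succ_self j⟩, FreeGroup.map.of⟩
  | inv_of j _ =>
    refine ⟨j + 1, (FreeGroup.of ⟨j, Nat.lt_succ_self j⟩)⁻¹, ?_⟩
    rw [map_inv, FreeGroup.map.of]
  | mul x y hx hy =>
    obtain ⟨a, u, hu⟩ := hx
    obtain ⟨b, v, hv⟩ := hy
    refine ⟨max a b, FreeGroup.map (Fin.castLE (le_max_left a b)) u *
      FreeGroup.map (Fin.castLE (le_max_right a b)) v, ?_⟩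
    rw [map_mul, hcast, hcast, hu, hv]

/-- Every Sylow `p`-subgroup satisfies the law `w`. -/
private def finalLaw (G : Type) [Group G] (p : ℕ) (w : FreeGroup ℕ) : Prop :=
  ∀ P : Sylow p G, ∀ f : FreeGroup ℕ →* G,
    (∀ j : ℕ, f (FreeGroup.of j) ∈ (P : Subgroup G)) → f w = 1

private theorem final_law_sub {G : Type} [Group G] {p : ℕ} {w : FreeGroup ℕ}
    (h : finalLaw G p w) (H : Subgroup G) : finalLaw H p w := by
  intro P f hf
  have hP : IsPGroup p ((P : Subgroup H).map H.subtype) := P.2.map H.subtype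
  obtain ⟨Q, hQ⟩ := hP.exists_le_sylow
  have h1 := h Q (H.subtype.comp f) (fun j => hQ ⟨f (FreeGroup.of j), hf j, rfl⟩)
  exact H.subtype_injective (by rw [map_one]; exact h1)

private theorem final_law_quot {G : Type} [Group G] [Finite G] {p : ℕ} [Fact p.Prime]
    {w : FreeGroup ℕ} (h : finalLaw G p w) (K : Subgroup G) [K.Normal] :
    finalLaw (G ⧸ K) p w := by
  intro P f hf
  obtain ⟨Q, hQ⟩ := Sylow.mapSurjective_surjective (QuotientGroup.mk'_surjective K) p P
  have h1 : ∀ j : ℕ, ∃ q : G, q ∈ (Q : Subgroup G) ∧ QuotientGroup.mk' K q = f (FreeGroup.of j) := by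
    intro j
    have h2 := hf j
    rw [← hQ, Sylow.coe_mapSurjective, Subgroup.mem_map] at h2
    exact h2
  choose q hq1 hq2 using h1
  have h3 := h Q (FreeGroup.lift q) (fun j => by rw [FreeGroup.lift_apply_of]; exact hq1 j)
  have h4 : (QuotientGroup.mk' K).comp (FreeGroup.lift q) = f := by
    apply FreeGroup.ext_hom
    intro j
    rw [MonoidHom.comp_apply, FreeGroup.lift_apply_of, hq2]
  rw [← h4, MonoidHom.comp_apply, h3, map_one]

private theorem final_pl_quot {G : Type} [Group G] [Finite G] {p m : ℕ} (hp : p.Prime)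
    (K : Subgroup G) [hK : K.Normal] (h : PL p m (⊥ : Subgroup G)) : PL p m (⊥ : Subgroup (G ⧸ K)) := by
  obtain ⟨N, h0, h1, h2, h3, h4, h5⟩ := PL.of_le hK bot_le h hp
  have hmono : ∀ i, K ≤ N i := by
    intro i
    induction i with
    | zero => rw [h0]
    | succ i ih => exact ih.trans (h3 i)
  have hrel : ∀ i, ((N i).map (QuotientGroup.mk' K)).relIndex
      ((N (i + 1)).map (QuotientGroup.mk' K)) = (N i).relIndex (N (i + 1)) := by
    intro i
    rw [Subgroup.relIndex_map_map, QuotientGroup.ker_mk', sup_eq_left.2 (hmono i),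
      sup_eq_left.2 (hmono (i + 1))]
  refine ⟨fun i => (N i).map (QuotientGroup.mk' K), ?_, ?_, ?_, ?_, ?_, ?_⟩
  · change (N 0).map (QuotientGroup.mk' K) = ⊥
    rw [h0, Subgroup.map_eq_bot_iff, QuotientGroup.ker_mk']
  · change (N (2 * m + 1)).map (QuotientGroup.mk' K) = ⊤
    rw [h1]
    exact Subgroup.map_top_of_surjective _ (QuotientGroup.mk'_surjective K)
  · intro i
    exact (h2 i).map _ (QuotientGroup.mk'_surjective K)
  · intro i
    exact Subgroup.map_mono (h3 i)
  · intro i hi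
    have := h4 i hi
    rwa [← hrel (2 * i)] at this
  · intro i hi
    obtain ⟨k, hk⟩ := h5 i hi
    exact ⟨k, by rw [← hk]; exact hrel (2 * i + 1)⟩

private theorem final_bound {p : ℕ} [Fact p.Prime] {N : ℕ} {w' : FreeGroup (Fin N)} {h : ℕ}
    (hh : ∀ (G : Type) [Group G] [Finite G] (n : ℕ) (_ : Tower p G n) (P : Sylow p G),
      h ≤ n → ∃ x : Fin N → (P : Subgroup G), ev x w' ≠ 1) (c : ℕ) :
    ∀ (G : Type) [Group G] [Finite G], Nat.card G = c →
      finalLaw G p (FreeGroup.map Fin.val w') → (∃ m, PL p m (⊥ : Subgroup G)) →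
      PL p h (⊥ : Subgroup G) := by
  induction c using Nat.strong_induction_on with
  | _ c ih =>
    intro G _ _ hc hlaw hsol
    by_contra hnot
    obtain ⟨m, hm⟩ := hsol
    obtain ⟨τ⟩ := partA (Fact.out : p.Prime) G h ⟨m, hm⟩ hnot (fun H hH => by
      refine ih (Nat.card H) ?_ H rfl (final_law_sub hlaw H) ⟨m, ?_⟩
      · rw [← hc]
        refine lt_of_le_of_ne (Subgroup.card_le_card_group H) fun h1 => hH ?_
        exact Subgroup.eq_top_of_card_eq H h1
      · have h1 := hm.subgroup (Fact.out : p.Prime) H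
        rwa [Subgroup.bot_subgroupOf] at h1) (fun K hK hne => by
      have h1 : PL p h (⊥ : Subgroup (G ⧸ K)) := by
        refine ih (Nat.card (G ⧸ K)) ?_ (G ⧸ K) rfl (final_law_quot hlaw K)
          ⟨m, final_pl_quot (Fact.out : p.Prime) K hm⟩
        have h2 := Subgroup.card_eq_card_quotient_mul_card_subgroup K
        rw [← hc, h2]
        have h3 : 1 < Nat.card K := by
          rw [← not_le, Subgroup.card_le_one_iff_eq_bot]
          exact hne
        exact lt_mul_of_one_lt_right Nat.card_pos h3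
      have h2 := h1.comap_quotient K
      rwa [MonoidHom.comap_bot, QuotientGroup.ker_mk'] at h2)
    obtain ⟨P⟩ : Nonempty (Sylow p G) := inferInstance
    obtain ⟨x, hx⟩ := hh G (2 * h) τ P (by omega)
    apply hx
    have h1 := hlaw P (FreeGroup.lift (fun j => if hj : j < N then ((x ⟨j, hj⟩ : P) : G) else 1))
      (fun j => by
        rw [FreeGroup.lift_apply_of]
        split_ifs with hj
        · exact (x ⟨j, hj⟩).2
        · exact Subgroup.one_mem _)
    rw [← h1]
    have h2 : (FreeGroup.lift (fun i : Fin N => ((x i : P) : G))) =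
        (FreeGroup.lift (fun j => if hj : j < N then ((x ⟨j, hj⟩ : P) : G) else 1)).comp
          (FreeGroup.map Fin.val) := by
      apply FreeGroup.ext_hom
      intro i
      rw [MonoidHom.comp_apply, FreeGroup.map.of, FreeGroup.lift_apply_of,
        FreeGroup.lift_apply_of, dif_pos i.2]
    exact DFunLike.congr_fun h2 w'

theorem final_main :
    ∀ (p : ℕ), p.Prime → ∀ w : FreeGroup ℕ, w ≠ 1 →
      ∃ n : ℕ, ∀ (G : Type) [Group G] [Finite G],
        (∀ P : Sylow p G, ∀ f : FreeGroup ℕ →* G,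
            (∀ j : ℕ, f (FreeGroup.of j) ∈ (P : Subgroup G)) → f w = 1) →
        (∃ m : ℕ, ∃ N : ℕ → Subgroup G,
            N 0 = ⊥ ∧ N (2 * m + 1) = ⊤ ∧ (∀ i, (N i).Normal) ∧
            (∀ i, N i ≤ N (i + 1)) ∧
            (∀ i ≤ m, ∃ c : ℕ, Nat.Coprime c p ∧
                Nat.card (N (2 * i + 1)) = c * Nat.card (N (2 * i))) ∧
            (∀ i < m, ∃ k : ℕ,
                Nat.card (N (2 * i + 2)) = p ^ k * Nat.card (N (2 * i + 1)))) →
        ∃ N : ℕ → Subgroup G,
            N 0 = ⊥ ∧ N (2 * n + 1) = ⊤ ∧ (∀ i, (N i).Normal) ∧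
            (∀ i, N i ≤ N (i + 1)) ∧
            (∀ i ≤ n, ∃ c : ℕ, Nat.Coprime c p ∧
                Nat.card (N (2 * i + 1)) = c * Nat.card (N (2 * i))) ∧
            (∀ i < n, ∃ k : ℕ,
                Nat.card (N (2 * i + 2)) = p ^ k * Nat.card (N (2 * i + 1))) := by
  intro p hp w hw
  obtain ⟨N, w', rfl⟩ := final_word w
  have hw' : w' ≠ 1 := by
    rintro rfl
    exact hw (map_one _)
  have : Fact p.Prime := ⟨hp⟩
  obtain ⟨h, hh⟩ := B_main p N w' hw'
  refine ⟨h, ?_⟩
  intro G _ _ hlaw hsol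
  obtain ⟨m, hm⟩ := hsol
  exact final_chain_iff.1 (final_bound hh (Nat.card G) G rfl hlaw ⟨m, final_chain_iff.2 hm⟩)

end Pool.Agent.PLen
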