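import Pool.Agent.Lib.MP_30fd2d_al.Defs

set_option autoImplicit false

/-! T1. Basic facts on chains bounding the p-length. -/

namespace Pool.Agent.PLen

/-- The `p`-length of `G / A` is at most `n` (chain definition, `A` normal). -/
def PL {G : Type} [Group G] (p n : ℕ) (A : Subgroup G) : Prop :=
  ∃ N : ℕ → Subgroup G, N 0 = A ∧ N (2 * n + 1) = ⊤ ∧ (∀ i, (N i).Normal) ∧
    (∀ i, N i ≤ N (i + 1)) ∧
    (∀ i ≤ n, ((N (2 * i)).relIndex (N (2 * i + 1))).Coprime p) ∧
    (∀ i < n, ∃ k : ℕ, (N (2 * i + 1)).relIndex (N (2 * i + 2)) = p ^ k)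

section Aux

variable {G : Type} [Group G] {p : ℕ}

theorem PL_relIndex_dvd {N K M : Subgroup G} [N.Normal] (hKM : K ≤ M) :
    N.relIndex K ∣ N.relIndex M := by
  rw [← Subgroup.relIndex_subgroupOf hKM]
  exact Subgroup.relIndex_dvd_index_of_normal _ _

theorem PL_relIndex_sup {A B U : Subgroup G} (hAB : A ≤ B) [(A ⊔ U).Normal] :
    (A ⊔ U).relIndex (B ⊔ U) ∣ A.relIndex B := by
  have h1 : B ⊔ U = B ⊔ (A ⊔ U) := by
    rw [← sup_assoc, sup_eq_left.mpr hAB]
  rw [h1, Subgroup.relIndex_sup_right]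
  exact Subgroup.relIndex_dvd_of_le_left _ le_sup_left

theorem PL_relIndex_inf {A B C D : Subgroup G} [A.Normal] [C.Normal] :
    (A ⊓ C).relIndex (B ⊓ D) ∣ A.relIndex B * C.relIndex D := by
  have h1 : (A ⊓ C).relIndex (B ⊓ D) = A.relIndex (C ⊓ (B ⊓ D)) * C.relIndex (B ⊓ D) :=
    (Subgroup.relIndex_inf_mul_relIndex A C (B ⊓ D)).symm
  rw [h1]
  exact mul_dvd_mul (PL_relIndex_dvd (inf_le_right.trans inf_le_left))
    (PL_relIndex_dvd inf_le_right)

theorem PL_pow_of_dvd (hp : p.Prime) {a b : ℕ} (h : a ∣ b) (hb : ∃ k, b = p ^ k) :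
    ∃ k, a = p ^ k := by
  obtain ⟨k, rfl⟩ := hb
  obtain ⟨j, _, hj⟩ := (Nat.dvd_prime_pow hp).mp h
  exact ⟨j, hj⟩

end Aux

section Basic

variable {G : Type} [Group G] {p : ℕ}

theorem PL.normal {n : ℕ} {A : Subgroup G} (h : PL p n A) : A.Normal := by
  obtain ⟨N, h0, _, hN, _⟩ := h
  rw [← h0]
  exact hN 0

theorem PL.subgroup {n : ℕ} {A : Subgroup G} (h : PL p n A) (hp : p.Prime) (H : Subgroup G) :
    PL p n (A.subgroupOf H) := by
  obtain ⟨N, h0, h1, hN, hle, hT, hY⟩ := h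
  have key : ∀ i, ((N i).subgroupOf H).relIndex ((N (i + 1)).subgroupOf H) ∣
      (N i).relIndex (N (i + 1)) := by
    intro i
    have := hN i
    have h2 : ((N i).subgroupOf H).relIndex ((N (i + 1)).subgroupOf H) =
        (N i).relIndex (N (i + 1) ⊓ H) := by
      rw [Subgroup.subgroupOf, Subgroup.relIndex_comap, Subgroup.subgroupOf_map_subtype]
    rw [h2]
    exact PL_relIndex_dvd inf_le_left
  refine ⟨fun i => (N i).subgroupOf H, congrArg (fun X => X.subgroupOf H) h0, ?_, ?_, ?_, ?_, ?_⟩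
  · change (N (2 * n + 1)).subgroupOf H = ⊤
    rw [h1, Subgroup.top_subgroupOf]
  · intro i
    have := hN i
    exact Subgroup.normal_subgroupOf
  · intro i
    exact Subgroup.comap_mono (hle i)
  · intro i hi
    exact Nat.Coprime.coprime_dvd_left (key (2 * i)) (hT i hi)
  · intro i hi
    exact PL_pow_of_dvd hp (key (2 * i + 1)) (hY i hi)

theorem PL.of_le {n : ℕ} {A B : Subgroup G} (hB : B.Normal) (hAB : A ≤ B) (h : PL p n A)
    (hp : p.Prime) : PL p n B := by
  obtain ⟨N, h0, h1, hN, hle, hT, hY⟩ := h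
  have hnor : ∀ i, (N i ⊔ B).Normal := fun i => by
    have := hN i
    exact Subgroup.sup_normal _ _
  have key : ∀ i, (N i ⊔ B).relIndex (N (i + 1) ⊔ B) ∣ (N i).relIndex (N (i + 1)) := by
    intro i
    have := hnor i
    exact PL_relIndex_sup (hle i)
  refine ⟨fun i => N i ⊔ B, ?_, ?_, hnor, ?_, ?_, ?_⟩
  · change N 0 ⊔ B = B
    rw [h0, sup_eq_right.mpr hAB]
  · change N (2 * n + 1) ⊔ B = ⊤
    rw [h1, top_sup_eq]
  · intro i
    exact sup_le_sup_right (hle i) B
  · intro i hi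
    exact Nat.Coprime.coprime_dvd_left (key (2 * i)) (hT i hi)
  · intro i hi
    exact PL_pow_of_dvd hp (key (2 * i + 1)) (hY i hi)

theorem PL.inf {n : ℕ} {A B : Subgroup G} (hA : PL p n A) (hB : PL p n B) (hp : p.Prime) :
    PL p n (A ⊓ B) := by
  obtain ⟨N, h0, h1, hN, hle, hT, hY⟩ := hA
  obtain ⟨N', h0', h1', hN', hle', hT', hY'⟩ := hB
  have key : ∀ i, (N i ⊓ N' i).relIndex (N (i + 1) ⊓ N' (i + 1)) ∣
      (N i).relIndex (N (i + 1)) * (N' i).relIndex (N' (i + 1)) := by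
    intro i
    have := hN i
    have := hN' i
    exact PL_relIndex_inf
  refine ⟨fun i => N i ⊓ N' i, ?_, ?_, ?_, ?_, ?_, ?_⟩
  · change N 0 ⊓ N' 0 = A ⊓ B
    rw [h0, h0']
  · change N (2 * n + 1) ⊓ N' (2 * n + 1) = ⊤
    rw [h1, h1', top_inf_eq]
  · intro i
    have := hN i
    have := hN' i
    exact Subgroup.normal_inf_normal _ _
  · intro i
    exact inf_le_inf (hle i) (hle' i)
  · intro i hi
    exact Nat.Coprime.coprime_dvd_left (key (2 * i)) ((hT i hi).mul_left (hT' i hi))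
  · intro i hi
    refine PL_pow_of_dvd hp (key (2 * i + 1)) ?_
    obtain ⟨k, hk⟩ := hY i hi
    obtain ⟨k', hk'⟩ := hY' i hi
    exact ⟨k + k', by rw [hk, hk', pow_add]⟩

theorem PL.of_coprime {n : ℕ} {A B : Subgroup G} (hA : A.Normal) (hAB : A ≤ B)
    (hc : (A.relIndex B).Coprime p) (h : PL p n B) : PL p n A := by
  obtain ⟨N, h0, h1, hN, hle, hT, hY⟩ := h
  have hpos : ∀ j, (if j + 1 = 0 then A else N (j + 1)) = N (j + 1) := fun j => if_neg (by omega)
  refine ⟨fun i => if i = 0 then A else N i, if_pos rfl, ?_, ?_, ?_, ?_, ?_⟩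
  · change (if 2 * n + 1 = 0 then A else N (2 * n + 1)) = ⊤
    rw [hpos, h1]
  · intro i
    change (if i = 0 then A else N i).Normal
    split_ifs
    · exact hA
    · exact hN i
  · intro i
    change (if i = 0 then A else N i) ≤ (if i + 1 = 0 then A else N (i + 1))
    rw [hpos]
    split_ifs with hi
    · subst hi
      exact (hAB.trans h0.ge).trans (hle 0)
    · exact hle i
  · intro i hi
    change ((if 2 * i = 0 then A else N (2 * i)).relIndex
      (if 2 * i + 1 = 0 then A else N (2 * i + 1))).Coprime p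
    rw [hpos]
    by_cases hi0 : i = 0
    · subst hi0
      rw [if_pos rfl]
      have h2 := hT 0 hi
      have h3 : A.relIndex (N (2 * 0 + 1)) = A.relIndex B * B.relIndex (N (2 * 0 + 1)) := by
        rw [Subgroup.relIndex_mul_relIndex _ _ _ hAB]
        rw [← h0]
        exact hle 0
      rw [h3]
      refine hc.mul_left ?_
      rw [← h0]
      exact h2
    · rw [if_neg (by omega)]
      exact hT i hi
  · intro i hi
    change ∃ k, (if 2 * i + 1 = 0 then A else N (2 * i + 1)).relIndex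
      (if 2 * i + 1 + 1 = 0 then A else N (2 * i + 1 + 1)) = p ^ k
    rw [hpos, hpos]
    exact hY i hi

theorem PL.of_pgroup {n : ℕ} {A B : Subgroup G} (hA : A.Normal) (hAB : A ≤ B)
    (hc : ∃ k, A.relIndex B = p ^ k) (h : PL p n B) : PL p (n + 1) A := by
  obtain ⟨N, h0, h1, hN, hle, hT, hY⟩ := h
  have hpos : ∀ j, (if j + 2 < 2 then A else N (j + 2 - 2)) = N j := fun j => by
    rw [if_neg (by omega), Nat.add_sub_cancel]
  refine ⟨fun i => if i < 2 then A else N (i - 2), if_pos (by omega), ?_, ?_, ?_, ?_, ?_⟩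
  · change (if 2 * (n + 1) + 1 < 2 then A else N (2 * (n + 1) + 1 - 2)) = ⊤
    rw [show 2 * (n + 1) + 1 = (2 * n + 1) + 2 by ring, hpos, h1]
  · intro i
    change (if i < 2 then A else N (i - 2)).Normal
    split_ifs
    · exact hA
    · exact hN _
  · intro i
    change (if i < 2 then A else N (i - 2)) ≤ (if i + 1 < 2 then A else N (i + 1 - 2))
    rcases i with _ | _ | i
    · rw [if_pos (by omega), if_pos (by omega)]
    · rw [if_pos (by omega), if_neg (by omega)]
      change A ≤ N 0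
      rw [h0]
      exact hAB
    · rw [hpos, show i + 1 + 1 + 1 = (i + 1) + 2 by ring, hpos]
      exact hle i
  · intro i hi
    change ((if 2 * i < 2 then A else N (2 * i - 2)).relIndex
      (if 2 * i + 1 < 2 then A else N (2 * i + 1 - 2))).Coprime p
    rcases i with _ | i
    · rw [if_pos (by omega), if_pos (by omega), Subgroup.relIndex_self]
      exact Nat.coprime_one_left p
    · rw [show 2 * (i + 1) + 1 = (2 * i + 1) + 2 by ring, hpos,
        show 2 * (i + 1) = (2 * i) + 2 by ring, hpos]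
      exact hT i (by omega)
  · intro i hi
    change ∃ k, (if 2 * i + 1 < 2 then A else N (2 * i + 1 - 2)).relIndex
      (if 2 * i + 2 < 2 then A else N (2 * i + 2 - 2)) = p ^ k
    rcases i with _ | i
    · rw [if_pos (by omega), if_neg (by omega)]
      change ∃ k, A.relIndex (N 0) = p ^ k
      rw [h0]
      exact hc
    · rw [show 2 * (i + 1) + 1 = (2 * i + 1) + 2 by ring, hpos,
        show 2 * (i + 1) + 2 = (2 * i + 2) + 2 by ring, hpos]
      exact hY i (by omega)

theorem PL.succ_cases {n : ℕ} {A : Subgroup G} (h : PL p (n + 1) A) :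
    ∃ N1 N2 : Subgroup G, N1.Normal ∧ N2.Normal ∧ A ≤ N1 ∧ N1 ≤ N2 ∧
      (A.relIndex N1).Coprime p ∧ (∃ k, N1.relIndex N2 = p ^ k) ∧ PL p n N2 := by
  obtain ⟨N, h0, h1, hN, hle, hT, hY⟩ := h
  refine ⟨N 1, N 2, hN 1, hN 2, ?_, hle 1, ?_, ?_, ?_⟩
  · rw [← h0]
    exact hle 0
  · rw [← h0]
    exact hT 0 (by omega)
  · exact hY 0 (by omega)
  · refine ⟨fun i => N (i + 2), rfl, ?_, fun i => hN _, fun i => ?_, fun i hi => ?_,
      fun i hi => ?_⟩
    · change N (2 * n + 1 + 2) = ⊤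
      rw [← h1]
      congr 1
    · change N (i + 2) ≤ N (i + 1 + 2)
      exact hle (i + 2)
    · change ((N (2 * i + 2)).relIndex (N (2 * i + 1 + 2))).Coprime p
      exact hT (i + 1) (by omega)
    · change ∃ k, (N (2 * i + 1 + 2)).relIndex (N (2 * i + 2 + 2)) = p ^ k
      exact hY (i + 1) (by omega)

theorem PL_sup_normal (H U : Subgroup G) [U.Normal] (hHU : H ⊔ U = ⊤) (B : Subgroup H)
    (hB : B.Normal) : (B.map H.subtype ⊔ U).Normal := by
  refine ⟨fun x hx g => ?_⟩
  obtain ⟨_, ⟨y, hy, rfl⟩, z, hz, rfl⟩ := Subgroup.mem_sup_of_normal_right.mp hx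
  obtain ⟨h, hh, u, hu, rfl⟩ := Subgroup.mem_sup_of_normal_right.mp
    (show g ∈ H ⊔ U by rw [hHU]; exact Subgroup.mem_top g)
  have e1 : h * u * (H.subtype y * z) * (h * u)⁻¹ = (h * y * h⁻¹) *
      (h * ((y : G)⁻¹ * u * y * z * u⁻¹) * h⁻¹) := by
    rw [Subgroup.coe_subtype]
    group
  rw [e1]
  refine Subgroup.mul_mem_sup ?_ ?_
  · refine ⟨(⟨h, hh⟩ : H) * y * (⟨h, hh⟩ : H)⁻¹, hB.conj_mem y hy _, ?_⟩
    simp
  · have hU : U.Normal := ‹_›
    refine hU.conj_mem _ ?_ h
    refine U.mul_mem (U.mul_mem ?_ hz) (U.inv_mem hu)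
    have := hU.conj_mem u hu (y : G)⁻¹
    rwa [inv_inv] at this

theorem PL_relIndex_supplement (H U : Subgroup G) {A B : Subgroup H} (hAB : A ≤ B)
    (hA : (A.map H.subtype ⊔ U).Normal) :
    (A.map H.subtype ⊔ U).relIndex (B.map H.subtype ⊔ U) ∣ A.relIndex B := by
  have h1 : (A.map H.subtype).relIndex (B.map H.subtype) = A.relIndex B :=
    Subgroup.relIndex_map_map_of_injective A B H.subtype_injective
  rw [← h1]
  exact PL_relIndex_sup (Subgroup.map_mono hAB)

/-- Passing from a supplement `H` of the normal subgroup `U` to `G`. -/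
theorem PL.of_supplement {n : ℕ} (H U : Subgroup G) [U.Normal] (hHU : H ⊔ U = ⊤)
    (B : Subgroup H) (h : PL p n B) (hp : p.Prime) : PL p n (B.map H.subtype ⊔ U) := by
  obtain ⟨N, h0, h1, hN, hle, hT, hY⟩ := h
  obtain ⟨N', hN'⟩ : ∃ N' : ℕ → Subgroup G, ∀ i, N' i = (N i).map H.subtype ⊔ U :=
    ⟨fun i => (N i).map H.subtype ⊔ U, fun i => rfl⟩
  have hnor : ∀ i, (N' i).Normal := fun i => by
    rw [hN']
    exact PL_sup_normal H U hHU _ (hN i)
  have key : ∀ i, (N' i).relIndex (N' (i + 1)) ∣ (N i).relIndex (N (i + 1)) := by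
    intro i
    rw [hN', hN']
    exact PL_relIndex_supplement H U (hle i) (by rw [← hN']; exact hnor i)
  refine ⟨N', by rw [hN', h0], ?_, hnor, ?_, ?_, ?_⟩
  · rw [hN', h1, ← MonoidHom.range_eq_map, Subgroup.range_subtype, hHU]
  · intro i
    rw [hN', hN']
    exact sup_le_sup_right (Subgroup.map_mono (hle i)) U
  · intro i hi
    exact Nat.Coprime.coprime_dvd_left (key (2 * i)) (hT i hi)
  · intro i hi
    exact PL_pow_of_dvd hp (key (2 * i + 1)) (hY i hi)

/-- Correspondence with a quotient. -/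
theorem PL.comap_quotient {n : ℕ} (K : Subgroup G) [K.Normal] (B : Subgroup (G ⧸ K))
    (h : PL p n B) : PL p n (B.comap (QuotientGroup.mk' K)) := by
  obtain ⟨N, h0, h1, hN, hle, hT, hY⟩ := h
  have key : ∀ i, ((N i).comap (QuotientGroup.mk' K)).relIndex
      ((N (i + 1)).comap (QuotientGroup.mk' K)) = (N i).relIndex (N (i + 1)) := by
    intro i
    rw [Subgroup.relIndex_comap, Subgroup.map_comap_eq_self_of_surjective
      (QuotientGroup.mk'_surjective K)]
  refine ⟨fun i => (N i).comap (QuotientGroup.mk' K),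
    congrArg (fun X => X.comap (QuotientGroup.mk' K)) h0, ?_, fun i => ?_, fun i => ?_,
    fun i hi => ?_, fun i hi => ?_⟩
  · change (N (2 * n + 1)).comap (QuotientGroup.mk' K) = ⊤
    rw [h1, Subgroup.comap_top]
  · have := hN i
    exact Subgroup.normal_comap _
  · exact Subgroup.comap_mono (hle i)
  · change (((N (2 * i)).comap (QuotientGroup.mk' K)).relIndex
      ((N (2 * i + 1)).comap (QuotientGroup.mk' K))).Coprime p
    rw [key]
    exact hT i hi
  · change ∃ k, ((N (2 * i + 1)).comap (QuotientGroup.mk' K)).relIndex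
      ((N (2 * i + 1 + 1)).comap (QuotientGroup.mk' K)) = p ^ k
    rw [key]
    exact hY i hi

end Basic

end Pool.Agent.PLen
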